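import Pool.Agent.Helper52.MA.Sub
import Pool.Agent.Helper52.MA.Defs2

/-!
# Project MA, module MA-4: every small family of values lives below some place
-/

set_option autoImplicit false
set_option linter.unusedSectionVars false

namespace Pool.Agent.Helper52.MA

open Set Pool.Agent.Helper33.HM

universe u

/-- A regular open set of a preorder with countable antichains is generated by a countable set. -/
theorem bound_gen {P : Type u} [Preorder P] (hc : PCCC P) (U : RO P) :
    ∃ A : Set P, A.Countable ∧ RO.gen A = U := by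
  let F : Set (Set P) :=
    {A | (∀ a ∈ A, a ∈ U) ∧ ∀ p ∈ A, ∀ q ∈ A, p ≠ q → ¬ ∃ r : P, r ≤ p ∧ r ≤ q}
  obtain ⟨A, hA⟩ := zorn_subset F (by
    intro c hcF hch
    refine ⟨⋃₀ c, ⟨?_, ?_⟩, fun s hs => subset_sUnion_of_mem hs⟩
    · rintro a ⟨s, hs, ha⟩
      exact (hcF hs).1 a ha
    · rintro p ⟨s, hs, hp⟩ q ⟨t, ht, hq⟩ hpq
      rcases hch.total hs ht with h | h
      · exact (hcF ht).2 p (h hp) q hq hpq
      · exact (hcF hs).2 p hp q (h hq) hpq)
  have hAF : A ∈ F := hA.prop
  refine ⟨A, hc A hAF.2, ?_⟩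
  apply RO.ext'
  intro p
  constructor
  · intro hp
    apply RO.mem_reg
    intro q hq
    obtain ⟨r, hr, a, ha, hra⟩ := hp q hq
    exact ⟨r, hr, RO.mem_lower hra (hAF.1 a ha)⟩
  · intro hp q hq
    by_contra hcon
    push Not at hcon
    have hqU : q ∈ U := RO.mem_lower hq hp
    have hins : insert q A ∈ F := by
      refine ⟨?_, ?_⟩
      · rintro a (rfl | ha)
        · exact hqU
        · exact hAF.1 a ha
      · rintro x (rfl | hx) y (rfl | hy) hxy
        · exact absurd rfl hxy
        · rintro ⟨r, h1, h2⟩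
          exact hcon r h1 y hy h2
        · rintro ⟨r, h1, h2⟩
          exact hcon r h2 x hx h1
        · exact hAF.2 x hx y hy hxy
    have hqA : q ∈ A := hA.le_of_ge hins (subset_insert q A) (mem_insert q A)
    exact hcon q le_rfl q hqA le_rfl

/-- MA-4. -/
theorem exists_bound {Ω : Type} [LinearOrder Ω]
    {code : Ordinal.{0} → Ω → Ω → Set (Cond Ordinal.{0} Ω)} (hc : PCCC (PC code)) {ι : Type}
    (U : ι → RO (PC code)) : ∃ β : Ordinal.{0}, ∀ i, U i ∈ S β := by
  choose A hA hgen using fun i => bound_gen hc (U i)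
  let T : ι → Set Ordinal.{0} := fun i => ⋃ a ∈ A i, {j | a.c.f j ≠ none}
  have hT : ∀ i, (T i).Countable := fun i => (hA i).biUnion fun a _ => a.c.fin.countable
  have hs : ∀ i, Small.{0} (T i) := fun i => by
    have := (hT i).to_subtype
    infer_instance
  have hsm : Small.{0} (⋃ i, T i : Set Ordinal.{0}) := small_iUnion T
  obtain ⟨β, hβ⟩ := Ordinal.bddAbove_of_small (s := ⋃ i, T i)
  refine ⟨Order.succ β, fun i => ?_⟩
  rw [← hgen i]
  refine gen_mem_S fun a ha j hj => ?_
  exact Order.lt_succ_of_le (hβ (mem_iUnion.2 ⟨i, mem_iUnion₂.2 ⟨a, ha, hj⟩⟩))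

end Pool.Agent.Helper52.MA
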